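import Mathlib

/-!
# Sums of `C(-1/3,k) C(-1/6,k) / (-16)^k` modulo `p^2`: failure at `p = 17`

`4 * 17 = 17 * 2^2 + 3 * 0^2` is a representation `4 p = 17 x^2 + 3 y^2` for `p = 17`.
-/

set_option autoImplicit false

open Finset

namespace Pool.Agent.Results.MP_f496b1_nt.FailsAt17

/-- The generalized binomial coefficient `a (a-1) ⋯ (a-k+1) / k!`. -/
def binom (a : ℚ) (k : ℕ) : ℚ := (∏ i ∈ range k, (a - i)) / (k.factorial : ℚ)

/-- `S_1(p)`. -/
def S1 (p : ℕ) : ℚ := ∑ k ∈ range p, binom (-1 / 3) k * binom (-1 / 6) k / (-16) ^ k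

/-- `S_2(p)`. -/
def S2 (p : ℕ) : ℚ := ∑ k ∈ range p, binom (-2 / 3) k * binom (-5 / 6) k / (-16) ^ k

/-- Congruence of rational numbers modulo `p^m`: the difference is `p^m` times a rational number
whose denominator is prime to `p`. -/
def Congr (p m : ℕ) (a b : ℚ) : Prop := ∃ c : ℚ, ¬ p ∣ c.den ∧ a - b = (p : ℚ) ^ m * c

/-- `ε_p` -/
def eps (p : ℕ) : ℚ := if p % 3 = 1 then 1 else 17 / 16

/-- `(17/p) ε_p S_2(p)` -/
def M (p : ℕ) : ℚ := (jacobiSym 17 p : ℚ) * eps p * S2 p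

/-- The right hand side in the first case. -/
def R1 (p : ℕ) (x : ℤ) : ℚ := -(jacobiSym x 3 : ℚ) * (x - p / x)

/-- The right hand side in the second case. -/
def R2 (p : ℕ) (x : ℤ) : ℚ := 1 / 4 * (jacobiSym x 3 : ℚ) * (17 * x - p / x)

/-- The assertion of Q1 for the prime `p`. -/
def Assertion (p : ℕ) : Prop :=
  (∀ x y : ℤ, 4 * (p : ℤ) = x ^ 2 + 51 * y ^ 2 →
    Congr p 2 (S1 p) (M p) ∧ Congr p 2 (M p) (R1 p x)) ∧
  (∀ x y : ℤ, 4 * (p : ℤ) = 17 * x ^ 2 + 3 * y ^ 2 →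
    Congr p 2 (S1 p) (M p) ∧ Congr p 2 (M p) (R2 p x)) ∧
  (jacobiSym p 3 = 1 → jacobiSym p 17 = -1 → Congr p 1 (S1 p) (M p) ∧ Congr p 1 (M p) 0)

theorem not_congr (p m : ℕ) (hp : p.Prime) (a b : ℚ) (D N : ℤ) (h : (D : ℚ) * (a - b) = N)
    (hN : ¬ (p : ℤ) ^ m ∣ N) : ¬ Congr p m a b := by
  rintro ⟨c, hc, hab⟩
  apply hN
  rw [hab] at h
  have h1 : (N : ℚ) * c.den = (D : ℚ) * (p : ℚ) ^ m * c.num := by
    rw [← h]
    have h2 : c * c.den = c.num := Rat.mul_den_eq_num c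
    calc (D : ℚ) * ((p : ℚ) ^ m * c) * c.den = (D : ℚ) * (p : ℚ) ^ m * (c * c.den) := by ring
      _ = _ := by rw [h2]
  have h3 : N * (c.den : ℤ) = D * (p : ℤ) ^ m * c.num := by exact_mod_cast h1
  have h4 : (p : ℤ) ^ m ∣ N * (c.den : ℤ) := by
    rw [h3]; exact ⟨D * c.num, by ring⟩
  have h5 : IsCoprime ((p : ℤ) ^ m) (c.den : ℤ) := by
    apply IsCoprime.pow_left
    rw [Nat.isCoprime_iff_coprime]
    exact (hp.coprime_iff_not_dvd).2 hc
  exact h5.dvd_of_dvd_mul_right h4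

theorem S1_val : S1 17 = 38878521654211103583505547395529851919376647001419 /
    39010794538760930098283544561653662229625997099008 := by
  unfold S1 binom
  simp only [Finset.sum_range_succ, Finset.sum_range_zero, Finset.prod_range_succ,
    Finset.prod_range_zero]
  norm_num [Nat.factorial]

theorem M_val : M 17 = 0 := by
  have h : jacobiSym 17 17 = 0 := by
    rw [jacobiSym.eq_zero_iff_not_coprime]
    decide
  unfold M
  rw [h]
  simp

theorem R2_val : R2 17 2 = -51 / 8 := by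
  unfold R2
  have h : jacobiSym 2 3 = -1 := by norm_num
  rw [h]
  norm_num

theorem fails_M : ¬ Congr 17 2 (S1 17) (M 17) := by
  refine not_congr 17 2 (by norm_num) _ _ 39010794538760930098283544561653662229625997099008
    38878521654211103583505547395529851919376647001419 ?_ (by norm_num)
  rw [S1_val, M_val]
  norm_num

theorem fails_R : ¬ Congr 17 2 (S1 17) (R2 17 2) := by
  refine not_congr 17 2 (by norm_num) _ _ 39010794538760930098283544561653662229625997099008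
    287572336838812032960063143976071948633242378507595 ?_ (by norm_num)
  rw [S1_val, R2_val]
  norm_num

/-- For `p = 17`, with `4 p = 17 * 2 ^ 2 + 3 * 0 ^ 2`, the sum `S_1(17)` is congruent modulo `17 ^ 2`
neither to `(17/p) ε_p S_2(p)` nor to `(1/4) (x/3) (17 x - p/x)`; so the assertion of Q1 fails for
the prime `17`, and is false. -/
theorem result : (4 * ((17 : ℕ) : ℤ) = 17 * 2 ^ 2 + 3 * 0 ^ 2 ∧ ¬ Congr 17 2 (S1 17) (M 17) ∧
    ¬ Congr 17 2 (S1 17) (R2 17 2)) ∧ ¬ ∀ p : ℕ, p.Prime → 3 < p → Assertion p := by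
  refine ⟨⟨by norm_num, fails_M, fails_R⟩, fun h => ?_⟩
  exact fails_M ((h 17 (by norm_num) (by norm_num)).2.1 2 0 (by norm_num)).1

end Pool.Agent.Results.MP_f496b1_nt.FailsAt17
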